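import Mathlib

set_option autoImplicit false

/-!
# A planar digraph of digirth four with star dichromatic number three halves

The digraph `D` has the vertices `0, …, 8` and `15` arcs. The directed `4`-cycles used are
`0 → 1 → 5 → 6 → 0`, `0 → 2 → 5 → 6 → 0`, `0 → 1 → 7 → 8 → 0`, `0 → 3 → 4 → 8 → 0` and `1 → 2 → 3 → 4 → 1`.

Suppose `c` is an acyclic `(k, d)`-colouring with `2 k < 3 d` and put `e = k - d`, so that `3 e < k`. Every
directed cycle has a colour in every window of `e` consecutive colours. Normalise `c 0 = 0` and give a vertex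
the type `1`, `2` or `3` if its colour lies in `[1, e]`, `[e + 1, 2 e]` or `[k - e, k - 1]`. These windows are
disjoint and avoid the colour of `0`, so the three other vertices of a directed `4`-cycle through `0` have the
three types in some order. The first two cycles show that `1` and `2` have the same type, the next two show
that the types of `3, 4` are those of `1, 7`, hence different from the type of `8`. So no vertex of the cycle
`1 → 2 → 3 → 4 → 1` has the type of `8`, a contradiction.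
-/

namespace Pool.Agent.Results.MP_ff0133_co.NineVertices

/-- The vertex set `S` is acyclic in the digraph `D`: there is no directed cycle inside `S`. -/
def AcyclicOn {V : Type} (D : V → V → Prop) (S : Set V) : Prop :=
  ∀ v, ¬ Relation.TransGen (fun a b => a ∈ S ∧ b ∈ S ∧ D a b) v v

/-- `c` is an acyclic `(k, d)`-colouring of `D`: for each `i`, the set of the vertices with a colour among
`i, i + 1, …, i + d - 1` (in `ℤ/k`) is acyclic. -/
def IsColouring {V : Type} (D : V → V → Prop) (k d : ℕ) (c : V → ZMod k) : Prop :=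
  ∀ i : ZMod k, AcyclicOn D {v | ∃ j : ℕ, j < d ∧ c v = i + j}

/-- The set of all `k / d`, `k ≥ d ≥ 1`, such that `D` has an acyclic `(k, d)`-colouring. -/
def ratios {V : Type} (D : V → V → Prop) : Set ℚ :=
  {q | ∃ k d : ℕ, 1 ≤ d ∧ d ≤ k ∧ (∃ c : V → ZMod k, IsColouring D k d c) ∧ q = (k : ℚ) / d}

/-- `D` has a directed cycle of length `n`: distinct vertices `p 0 → p 1 → … → p (n - 1) → p 0`. -/
def HasCycle {V : Type} (D : V → V → Prop) (n : ℕ) : Prop :=
  ∃ p : ℕ → V, p n = p 0 ∧ (∀ i, i < n → D (p i) (p (i + 1))) ∧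
    (∀ i j, i < n → j < n → p i = p j → i = j)

/-- The digirth of `D` is `g`: the least length of a directed cycle is `g`. -/
def HasDigirth {V : Type} (D : V → V → Prop) (g : ℕ) : Prop :=
  IsLeast {n | 1 ≤ n ∧ HasCycle D n} g

/-- A straight-line drawing of `D` without crossings: the vertices are distinct points of the plane, no
vertex lies on an edge of which it is not an end, and two edges meet in common ends only. -/
def IsPlaneDrawing {V : Type} (D : V → V → Prop) (p : V → ℝ × ℝ) : Prop :=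
  Function.Injective p ∧
  (∀ a b v, D a b → p v ∈ segment ℝ (p a) (p b) → v = a ∨ v = b) ∧
  (∀ a b c d, D a b → D c d → ¬ (a = c ∧ b = d) →
    ∀ x, x ∈ segment ℝ (p a) (p b) → x ∈ segment ℝ (p c) (p d) →
      ∃ v, (v = a ∨ v = b) ∧ (v = c ∨ v = d) ∧ x = p v)

/-- The arcs of the digraph. -/
def arcs : List (Fin 9 × Fin 9) :=
  [(0, 1), (0, 2), (0, 3), (4, 1), (4, 8), (2, 5), (2, 3), (3, 4), (1, 2), (1, 5), (1, 7), (6, 0), (5, 6),
    (8, 0), (7, 8)]

/-- The digraph on nine vertices. -/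
def D (a b : Fin 9) : Prop := (a, b) ∈ arcs

instance : DecidableRel D := fun a b => inferInstanceAs (Decidable ((a, b) ∈ arcs))

/-! ## The lower bound -/

theorem not_all {k d : ℕ} {c : Fin 9 → ZMod k} (hc : IsColouring D k d c) {x y z w : Fin 9}
    (h1 : D x y) (h2 : D y z) (h3 : D z w) (h4 : D w x) (i : ZMod k) :
    ¬ ((∃ j : ℕ, j < d ∧ c x = i + j) ∧ (∃ j : ℕ, j < d ∧ c y = i + j) ∧
      (∃ j : ℕ, j < d ∧ c z = i + j) ∧ (∃ j : ℕ, j < d ∧ c w = i + j)) := by
  rintro ⟨a, b, e, f⟩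
  apply hc i x
  exact Relation.TransGen.head ⟨a, b, h1⟩ (Relation.TransGen.head ⟨b, e, h2⟩
    (Relation.TransGen.head ⟨e, f, h3⟩ (Relation.TransGen.single ⟨f, a, h4⟩)))

/-- the type of a position `x` -/
def typ (k e x : ℕ) : ℕ :=
  if 1 ≤ x ∧ x ≤ e then 1 else if e < x ∧ x ≤ 2 * e then 2 else if k - e ≤ x ∧ x < k then 3 else 0

theorem lower {k d : ℕ} (hk : 1 ≤ k) (hdk : d ≤ k) {c : Fin 9 → ZMod k} (hc : IsColouring D k d c) :
    3 * d ≤ 2 * k := by
  by_contra hlt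
  push Not at hlt
  have : NeZero k := ⟨by omega⟩
  obtain ⟨e, he⟩ : ∃ e, k = d + e := ⟨k - d, by omega⟩
  have he3 : 3 * e < k := by omega
  -- relative position of a colour
  have pos : ∀ v, ∃ x : ℕ, x < k ∧ c v = c 0 + x := by
    intro v
    refine ⟨(c v - c 0).val, ZMod.val_lt _, ?_⟩
    rw [ZMod.natCast_zmod_val]; ring
  choose x hx1 hx2 using pos
  have hkk : ((k : ℕ) : ZMod k) = 0 := ZMod.natCast_self k
  have hx0 : x 0 = 0 := by
    have h := hx2 0
    have h' : ((x 0 : ℕ) : ZMod k) = 0 := by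
      have : c 0 + 0 = c 0 + (x 0 : ZMod k) := by rw [add_zero]; exact h
      exact (add_left_cancel this).symm
    rw [ZMod.natCast_eq_zero_iff] at h'
    exact Nat.eq_zero_of_dvd_of_lt h' (hx1 0)
  -- every window of `e` colours meets the cycle
  have win : ∀ y1 y2 y3 y4 : Fin 9, D y1 y2 → D y2 y3 → D y3 y4 → D y4 y1 → ∀ m : ℕ, m + e ≤ k →
      (m ≤ x y1 ∧ x y1 < m + e) ∨ (m ≤ x y2 ∧ x y2 < m + e) ∨ (m ≤ x y3 ∧ x y3 < m + e) ∨
        (m ≤ x y4 ∧ x y4 < m + e) := by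
    intro y1 y2 y3 y4 h1 h2 h3 h4 m hm
    by_contra hcon
    push Not at hcon
    have key : ∀ v, (m ≤ x v → m + e ≤ x v) →
        ∃ j : ℕ, j < d ∧ c v = (c 0 + ((m + e : ℕ) : ZMod k)) + j := by
      intro v hv
      by_cases h0 : m ≤ x v
      · have h1 := hv h0
        refine ⟨x v - (m + e), by have := hx1 v; omega, ?_⟩
        rw [hx2 v, Nat.cast_sub h1]; ring
      · refine ⟨x v + k - (m + e), by omega, ?_⟩
        have hcast : ((x v + k - (m + e) : ℕ) : ZMod k) =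
            (x v : ZMod k) + ((k : ℕ) : ZMod k) - ((m + e : ℕ) : ZMod k) := by
          rw [Nat.cast_sub (by omega), Nat.cast_add]
        rw [hx2 v, hcast, hkk]; ring
    exact not_all hc h1 h2 h3 h4 _ ⟨key y1 hcon.1, key y2 hcon.2.1, key y3 hcon.2.2.1,
      key y4 hcon.2.2.2⟩
  obtain ⟨t, ht⟩ : ∃ t : Fin 9 → ℕ, ∀ v, t v = typ k e (x v) := ⟨_, fun _ => rfl⟩
  have t1 : ∀ v, 1 ≤ x v → x v < 1 + e → t v = 1 := by
    intro v a b
    rw [ht, typ, if_pos (by omega)]
  have t2 : ∀ v, e + 1 ≤ x v → x v < e + 1 + e → t v = 2 := by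
    intro v a b
    rw [ht, typ, if_neg (by omega), if_pos (by omega)]
  have t3 : ∀ v, k - e ≤ x v → x v < k - e + e → t v = 3 := by
    intro v a b
    have := hx1 v
    rw [ht, typ, if_neg (by omega), if_neg (by omega), if_pos (by omega)]
  have t0 : t 0 = 0 := by
    rw [ht, hx0, typ, if_neg (by omega), if_neg (by omega), if_neg (by omega)]
  have cyc : ∀ y1 y2 y3 y4 : Fin 9, D y1 y2 → D y2 y3 → D y3 y4 → D y4 y1 →
      (t y1 = 1 ∨ t y2 = 1 ∨ t y3 = 1 ∨ t y4 = 1) ∧ (t y1 = 2 ∨ t y2 = 2 ∨ t y3 = 2 ∨ t y4 = 2) ∧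
      (t y1 = 3 ∨ t y2 = 3 ∨ t y3 = 3 ∨ t y4 = 3) := by
    intro y1 y2 y3 y4 h1 h2 h3 h4
    refine ⟨?_, ?_, ?_⟩
    · exact (win y1 y2 y3 y4 h1 h2 h3 h4 1 (by omega)).imp (fun h => t1 _ h.1 h.2)
        (fun h => h.imp (fun h => t1 _ h.1 h.2) (fun h => h.imp (fun h => t1 _ h.1 h.2)
          (fun h => t1 _ h.1 h.2)))
    · exact (win y1 y2 y3 y4 h1 h2 h3 h4 (e + 1) (by omega)).imp (fun h => t2 _ h.1 h.2)
        (fun h => h.imp (fun h => t2 _ h.1 h.2) (fun h => h.imp (fun h => t2 _ h.1 h.2)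
          (fun h => t2 _ h.1 h.2)))
    · exact (win y1 y2 y3 y4 h1 h2 h3 h4 (k - e) (by omega)).imp (fun h => t3 _ h.1 h.2)
        (fun h => h.imp (fun h => t3 _ h.1 h.2) (fun h => h.imp (fun h => t3 _ h.1 h.2)
          (fun h => t3 _ h.1 h.2)))
  obtain ⟨a1, a2, a3⟩ := cyc 0 1 5 6 (by decide) (by decide) (by decide) (by decide)
  obtain ⟨b1, b2, b3⟩ := cyc 0 2 5 6 (by decide) (by decide) (by decide) (by decide)
  obtain ⟨c1, c2, c3⟩ := cyc 0 1 7 8 (by decide) (by decide) (by decide) (by decide)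
  obtain ⟨d1, d2, d3⟩ := cyc 0 3 4 8 (by decide) (by decide) (by decide) (by decide)
  obtain ⟨e1, e2, e3⟩ := cyc 1 2 3 4 (by decide) (by decide) (by decide) (by decide)
  rw [t0] at a1 a2 a3 b1 b2 b3 c1 c2 c3 d1 d2 d3
  have s12 : t 1 = t 2 := by omega
  have s8 : (t 8 = 1 ∨ t 8 = 2 ∨ t 8 = 3) ∧ t 1 ≠ t 8 ∧ t 3 ≠ t 8 ∧ t 4 ≠ t 8 := by omega
  omega

/-! ## The colouring with three colours -/

/-- the colouring -/
def c3 : Fin 9 → ZMod 3 := ![0, 0, 0, 1, 2, 1, 2, 1, 2]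

/-- rankings that decrease along the arcs inside two colour classes -/
def rk : ZMod 3 → Fin 9 → ℕ :=
  ![![3, 2, 1, 0, 0, 0, 0, 0, 0], ![0, 0, 0, 2, 1, 1, 0, 1, 0], ![2, 1, 0, 0, 4, 0, 3, 0, 3]]

theorem rk_fact : ∀ (i : ZMod 3) (a b : Fin 9), D a b → (c3 a = i ∨ c3 a = i + 1) →
    (c3 b = i ∨ c3 b = i + 1) → rk i b < rk i a := by
  decide +kernel

theorem three_colouring : IsColouring D 3 2 c3 := by
  intro i v h
  have cls : ∀ a, (∃ j : ℕ, j < 2 ∧ c3 a = i + j) → (c3 a = i ∨ c3 a = i + 1) := by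
    rintro a ⟨j, hj, e⟩
    interval_cases j
    · left; simpa using e
    · right; simpa using e
  have key : ∀ a b, Relation.TransGen (fun a b => a ∈ {v | ∃ j : ℕ, j < 2 ∧ c3 v = i + j} ∧
      b ∈ {v | ∃ j : ℕ, j < 2 ∧ c3 v = i + j} ∧ D a b) a b → rk i b < rk i a := by
    intro a b hab
    have step : ∀ a b, (a ∈ {v | ∃ j : ℕ, j < 2 ∧ c3 v = i + j} ∧
      b ∈ {v | ∃ j : ℕ, j < 2 ∧ c3 v = i + j} ∧ D a b) → rk i b < rk i a := by
      rintro a b ⟨h1, h2, hD⟩
      exact rk_fact i a b hD (cls a h1) (cls b h2)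
    induction hab with
    | single h => exact step _ _ h
    | tail _ h ih => exact (step _ _ h).trans ih
  exact lt_irrefl _ (key v v h)

/-! ## The digirth -/

theorem no3 : (∀ a, ¬ D a a) ∧ (∀ a b, D a b → ¬ D b a) ∧ (∀ a b c, D a b → D b c → ¬ D c a) := by
  decide +kernel

theorem digirth : HasDigirth D 4 := by
  refine ⟨⟨by norm_num, ?_⟩, ?_⟩
  · refine ⟨fun n => ![0, 1, 5, 6, 0] (Fin.ofNat 5 n), by decide, ?_, ?_⟩
    · intro i hi
      interval_cases i <;> decide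
    · intro i j hi hj
      interval_cases i <;> interval_cases j <;> decide
  · rintro n ⟨hn, p, hp, hD, -⟩
    by_contra hlt
    push Not at hlt
    obtain ⟨n1, n2, n3⟩ := no3
    interval_cases n
    · have := hD 0 (by norm_num)
      rw [zero_add, hp] at this
      exact n1 _ this
    · have h0 := hD 0 (by norm_num)
      have h1 := hD 1 (by norm_num)
      norm_num at h0 h1
      rw [hp] at h1
      exact n2 _ _ h0 h1
    · have h0 := hD 0 (by norm_num)
      have h1 := hD 1 (by norm_num)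
      have h2 := hD 2 (by norm_num)
      norm_num at h0 h1 h2
      rw [hp] at h2
      exact n3 _ _ _ h0 h1 h2

/-! ## The drawing -/

/-- integer coordinates of the vertices -/
def co : Fin 9 → ℤ × ℤ :=
  ![(0, 10), (8, 7), (1, 4), (0, 3), (10, 2), (2, 6), (5, 7), (5, 9), (10, 10)]

/-- the drawing -/
def pt (v : Fin 9) : ℝ × ℝ := (((co v).1 : ℝ), ((co v).2 : ℝ))

/-- orientation of a triple of points -/
def ori (A B P : ℝ × ℝ) : ℝ := (B.1 - A.1) * (P.2 - A.2) - (B.2 - A.2) * (P.1 - A.1)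

def oriZ (A B P : ℤ × ℤ) : ℤ := (B.1 - A.1) * (P.2 - A.2) - (B.2 - A.2) * (P.1 - A.1)

theorem ori_cast (a b c : Fin 9) : ori (pt a) (pt b) (pt c) = (oriZ (co a) (co b) (co c) : ℝ) := by
  simp only [ori, oriZ, pt]
  push_cast
  ring

theorem ori_seg {A B C E P : ℝ × ℝ} (h : P ∈ segment ℝ C E) :
    ∃ t : ℝ, 0 ≤ t ∧ t ≤ 1 ∧ P = (C.1 + t * (E.1 - C.1), C.2 + t * (E.2 - C.2)) ∧
      ori A B P = (1 - t) * ori A B C + t * ori A B E := by
  rw [segment_eq_image] at h
  obtain ⟨t, ⟨h0, h1⟩, rfl⟩ := h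
  refine ⟨t, h0, h1, ?_, ?_⟩
  · ext
    · simp; ring
    · simp; ring
  · simp only [ori, Prod.fst_add, Prod.snd_add, Prod.smul_fst, Prod.smul_snd, smul_eq_mul]
    ring

theorem ori_self_seg {A B P : ℝ × ℝ} (h : P ∈ segment ℝ A B) : ori A B P = 0 := by
  obtain ⟨t, -, -, -, h⟩ := ori_seg (A := A) (B := B) h
  rw [h]
  simp only [ori]
  ring

theorem no_meet {A B C E P : ℝ × ℝ} (h : (0 < ori A B C ∧ 0 < ori A B E) ∨
    (ori A B C < 0 ∧ ori A B E < 0)) (h1 : P ∈ segment ℝ A B) (h2 : P ∈ segment ℝ C E) :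
    False := by
  have e1 := ori_self_seg h1
  obtain ⟨t, h0, h1, -, e2⟩ := ori_seg (A := A) (B := B) h2
  rw [e1] at e2
  rcases h with ⟨a, b⟩ | ⟨a, b⟩
  · nlinarith [mul_nonneg h0 b.le, mul_nonneg (sub_nonneg.2 h1) a.le]
  · nlinarith [mul_nonneg h0 (neg_pos.2 b).le, mul_nonneg (sub_nonneg.2 h1) (neg_pos.2 a).le]

theorem meet_common {A B E P : ℝ × ℝ} (h : ori A B E ≠ 0) (h1 : P ∈ segment ℝ A B)
    (h2 : P ∈ segment ℝ A E) : P = A := by
  have e1 := ori_self_seg h1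
  obtain ⟨t, h0, h1, hP, e2⟩ := ori_seg (A := A) (B := B) h2
  have e3 : ori A B A = 0 := by simp only [ori]; ring
  rw [e1, e3] at e2
  have ht : t = 0 := by
    have : t * ori A B E = 0 := by linarith
    rcases mul_eq_zero.1 this with r | r
    · exact r
    · exact absurd r h
  subst ht
  rw [hP]
  ext <;> simp

theorem co_inj : ∀ a b, co a = co b → a = b := by decide

theorem co_off : ∀ a b v, D a b → v ≠ a → v ≠ b → oriZ (co a) (co b) (co v) ≠ 0 := by decide

theorem co_cross : ∀ a b c d, D a b → D c d → ¬ (a = c ∧ b = d) →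
    (a = c ∧ oriZ (co a) (co b) (co d) ≠ 0) ∨ (a = d ∧ oriZ (co a) (co b) (co c) ≠ 0) ∨
      (b = c ∧ oriZ (co b) (co a) (co d) ≠ 0) ∨ (b = d ∧ oriZ (co b) (co a) (co c) ≠ 0) ∨
      (0 < oriZ (co a) (co b) (co c) ∧ 0 < oriZ (co a) (co b) (co d)) ∨
      (oriZ (co a) (co b) (co c) < 0 ∧ oriZ (co a) (co b) (co d) < 0) ∨
      (0 < oriZ (co c) (co d) (co a) ∧ 0 < oriZ (co c) (co d) (co b)) ∨
      (oriZ (co c) (co d) (co a) < 0 ∧ oriZ (co c) (co d) (co b) < 0) := by
  decide +kernel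

theorem drawing : IsPlaneDrawing D pt := by
  refine ⟨?_, ?_, ?_⟩
  · intro a b h
    have h1 : ((co a).1 : ℝ) = (co b).1 := congrArg Prod.fst h
    have h2 : ((co a).2 : ℝ) = (co b).2 := congrArg Prod.snd h
    have h1' : (co a).1 = (co b).1 := by exact_mod_cast h1
    have h2' : (co a).2 = (co b).2 := by exact_mod_cast h2
    exact co_inj a b (Prod.ext h1' h2')
  · intro a b v hab hv
    by_contra hcon
    push Not at hcon
    have h0 : oriZ (co a) (co b) (co v) ≠ 0 := co_off a b v hab hcon.1 hcon.2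
    have := ori_self_seg hv
    rw [ori_cast] at this
    exact h0 (by exact_mod_cast this)
  · intro a b c d hab hcd hne x hx hy
    have key := co_cross a b c d hab hcd hne
    have castne : ∀ a b c, oriZ (co a) (co b) (co c) ≠ 0 → ori (pt a) (pt b) (pt c) ≠ 0 := by
      intro a b c h
      rw [ori_cast]; exact_mod_cast h
    have castpos : ∀ a b c, 0 < oriZ (co a) (co b) (co c) → 0 < ori (pt a) (pt b) (pt c) := by
      intro a b c h
      rw [ori_cast]; exact_mod_cast h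
    have castneg : ∀ a b c, oriZ (co a) (co b) (co c) < 0 → ori (pt a) (pt b) (pt c) < 0 := by
      intro a b c h
      rw [ori_cast]; exact_mod_cast h
    rcases key with ⟨h, h'⟩ | ⟨h, h'⟩ | ⟨h, h'⟩ | ⟨h, h'⟩ | ⟨h, h'⟩ | ⟨h, h'⟩ | ⟨h, h'⟩ | ⟨h, h'⟩
    · subst h
      exact ⟨a, Or.inl rfl, Or.inl rfl, meet_common (castne _ _ _ h') hx hy⟩
    · subst h
      rw [segment_symm] at hy
      exact ⟨a, Or.inl rfl, Or.inr rfl, meet_common (castne _ _ _ h') hx hy⟩
    · subst h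
      rw [segment_symm] at hx
      exact ⟨b, Or.inr rfl, Or.inl rfl, meet_common (castne _ _ _ h') hx hy⟩
    · subst h
      rw [segment_symm] at hx hy
      exact ⟨b, Or.inr rfl, Or.inr rfl, meet_common (castne _ _ _ h') hx hy⟩
    · exact (no_meet (Or.inl ⟨castpos _ _ _ h, castpos _ _ _ h'⟩) hx hy).elim
    · exact (no_meet (Or.inr ⟨castneg _ _ _ h, castneg _ _ _ h'⟩) hx hy).elim
    · exact (no_meet (Or.inl ⟨castpos _ _ _ h, castpos _ _ _ h'⟩) hy hx).elim
    · exact (no_meet (Or.inr ⟨castneg _ _ _ h, castneg _ _ _ h'⟩) hy hx).elim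

/-- **There is a planar digraph of digirth `4` with star dichromatic number exactly `3 / 2`,** which is
`(g - 1) / (g - 2)` for `g = 4`. It has nine vertices. -/
theorem result : ∃ g : ℕ, 4 ≤ g ∧ ∃ (n : ℕ) (D : Fin n → Fin n → Prop),
    (∃ p : Fin n → ℝ × ℝ, IsPlaneDrawing D p) ∧ HasDigirth D g ∧
    IsLeast (ratios D) (((g : ℚ) - 1) / ((g : ℚ) - 2)) := by
  refine ⟨4, le_rfl, 9, D, ⟨pt, drawing⟩, digirth, ⟨3, 2, by norm_num, by norm_num,
    ⟨c3, three_colouring⟩, by norm_num⟩, ?_⟩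
  rintro q ⟨k, d, hd, hdk, ⟨c, hc⟩, rfl⟩
  have h := lower (by omega) hdk hc
  have hd' : (0 : ℚ) < d := by exact_mod_cast hd
  have h' : (3 : ℚ) * d ≤ 2 * k := by exact_mod_cast h
  rw [le_div_iff₀ hd']
  norm_num
  linarith

end Pool.Agent.Results.MP_ff0133_co.NineVertices
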